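import Pool.Agent.T2h66.LL.Stm

/-!
# Task C0 (project `MP_5ae62c_nt` of helper66): the function on `GL_2(Ô)` behind the cusp form

(helper21)
-/

set_option autoImplicit false

noncomputable section

open scoped Polynomial WithZero
open IsDedekindDomain WithZero

namespace Pool.Agent.T2h21.LLC0

open Pool.Agent.T2h66.LL

/-! ### Valuations of polynomials -/

lemma val_aF (v : Pl) (a : A) : Valued.v (aF a v) = v.intValuation a := by
  have h : aF a v = ((algebraMap A K a : K) : Kv v) := rfl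
  rw [h, HeightOneSpectrum.valuedAdicCompletion_eq_valuation']
  exact HeightOneSpectrum.valuation_of_algebraMap v a

lemma val_aF_le (v : Pl) (a : A) : Valued.v (aF a v) ≤ 1 := by
  rw [val_aF]; exact HeightOneSpectrum.intValuation_le_one v a

lemma val_aF_lt (v : Pl) (a : A) : Valued.v (aF a v) < 1 ↔ a ∈ v.asIdeal := by
  rw [val_aF]; exact HeightOneSpectrum.intValuation_lt_one_iff_mem v a

/-- the place `t = c` -/
def pl (c : ZMod 2) : Pl where
  asIdeal := Ideal.span {Polynomial.X - Polynomial.C c}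
  isPrime := by
    rw [Ideal.span_singleton_prime (Polynomial.X_sub_C_ne_zero c)]
    exact Polynomial.prime_X_sub_C c
  ne_bot := by
    rw [Ne, Ideal.span_singleton_eq_bot]
    exact Polynomial.X_sub_C_ne_zero c

lemma val_pl (c : ZMod 2) (a : A) : Valued.v (aF a (pl c)) < 1 ↔ a.eval c = 0 := by
  rw [val_aF_lt]
  change a ∈ Ideal.span {Polynomial.X - Polynomial.C c} ↔ _
  rw [Ideal.mem_span_singleton, Polynomial.dvd_iff_isRoot]
  rfl

lemma pl_ne : pl 1 ≠ pl 0 := by
  intro h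
  have h1 : (Polynomial.X - Polynomial.C (1 : ZMod 2)) ∈ (pl 0).asIdeal := by
    rw [← h]; exact Ideal.mem_span_singleton_self _
  have h2 := (val_aF_lt (pl 0) _).2 h1
  rw [val_pl] at h2
  simp at h2

/-- characteristic two -/
lemma two_eq {R : Type} [CommRing R] (f : K →+* R) : (2 : R) = 0 := by
  have h : (2 : K) = 0 := by
    have h1 : (2 : ZMod 2) = 0 := rfl
    have h2 := congrArg (algebraMap (ZMod 2) K) h1
    rwa [map_ofNat, map_zero] at h2
  have h3 := congrArg f h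
  rwa [map_ofNat, map_zero] at h3

lemma two_Kv (v : Pl) : (2 : Kv v) = 0 := two_eq (algebraMap K (Kv v))

lemma two_Af : (2 : Af) = 0 := two_eq (algebraMap K Af)

lemma neg_eq_self_of_two {R : Type} [CommRing R] (h : (2 : R) = 0) (x : R) : -x = x := by
  have : x + x = 0 := by rw [← two_mul, h, zero_mul]
  exact neg_eq_of_add_eq_zero_left this

/-- the residue field at `t = c` has two elements -/
lemma res2 (hAP : S_AP) (c : ZMod 2) : Res2 (Valued.v : Valuation (Kv (pl c)) ℤᵐ⁰) := by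
  intro x hx
  obtain ⟨a, ha⟩ := hAP (upd (pl c) x 0) (Polynomial.X - Polynomial.C c)
    (Polynomial.X_sub_C_ne_zero c) (by
      intro v
      by_cases hv : v = pl c
      · subst hv; rw [upd_same]; exact hx.le
      · rw [upd_ne _ _ _ hv]
        exact (map_zero (Valued.v : Valuation (Kv v) ℤᵐ⁰)).le.trans zero_le_one)
  have h1 := ha (pl c)
  have h2 : (upd (pl c) x 0 - aF a) (pl c) = x - aF a (pl c) := by
    have : (upd (pl c) x 0 - aF a) (pl c) = upd (pl c) x 0 (pl c) - aF a (pl c) := rfl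
    rw [this, upd_same]
  rw [h2] at h1
  have h3 : Valued.v (aF (Polynomial.X - Polynomial.C c) (pl c)) < 1 := by
    rw [val_pl]; simp
  have h4 : Valued.v (x - aF a (pl c)) < 1 := h1.trans_lt h3
  -- `a` is congruent to `1`
  have h5 : a.eval c ≠ 0 := by
    intro h0
    have h6 := (val_pl c a).2 h0
    have h7 : Valued.v x < 1 := by
      have : x = (x - aF a (pl c)) + aF a (pl c) := by ring
      rw [this]
      exact Valuation.map_add_lt _ h4 h6
    exact absurd hx h7.ne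
  have h6 : a.eval c = 1 := by
    have : ∀ z : ZMod 2, z ≠ 0 → z = 1 := by decide
    exact this _ h5
  have h7 : Valued.v (aF (a - 1) (pl c)) < 1 := by
    rw [val_pl]; simp [h6]
  have h8 : aF (a - 1) (pl c) = aF a (pl c) - 1 := by
    rw [map_sub, map_one]; rfl
  rw [h8] at h7
  have : x - 1 = (x - aF a (pl c)) + (aF a (pl c) - 1) := by ring
  rw [this]
  exact Valuation.map_add_lt _ h4 h7

/-! ### Reduction of integral elements, for a field with `Res2` and `2 = 0` -/

section red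

variable {F : Type} [Field F] (v : Valuation F ℤᵐ⁰)

/-- reduction -/
def rd (x : F) : ZMod 2 := if v x < 1 then 0 else 1

lemma rd_eq_zero {x : F} : rd v x = 0 ↔ v x < 1 := by
  unfold rd; split_ifs with h
  · simp [h]
  · simp [h]

lemma rd_zero : rd v 0 = 0 := by rw [rd_eq_zero]; simp

lemma rd_one : rd v 1 = 1 := by
  unfold rd; rw [if_neg]; simp

lemma eq_one_of_le {x : F} (h : v x ≤ 1) (h' : ¬ v x < 1) : v x = 1 := le_antisymm h (not_lt.1 h')

lemma rd_mul {x y : F} (hx : v x ≤ 1) (hy : v y ≤ 1) : rd v (x * y) = rd v x * rd v y := by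
  unfold rd
  by_cases h1 : v x < 1
  · rw [if_pos h1, zero_mul, if_pos]
    rw [map_mul]; exact lt_of_le_of_lt (mul_le_of_le_one_right' hy) h1
  · by_cases h2 : v y < 1
    · rw [if_pos h2, mul_zero, if_pos]
      rw [map_mul]; exact lt_of_le_of_lt (mul_le_of_le_one_left' hx) h2
    · rw [if_neg h1, if_neg h2, one_mul, if_neg]
      rw [map_mul, eq_one_of_le v hx h1, eq_one_of_le v hy h2]; simp

lemma rd_add (hr : Res2 v) (h2 : (2 : F) = 0) {x y : F} (hx : v x ≤ 1) (hy : v y ≤ 1) :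
    rd v (x + y) = rd v x + rd v y := by
  unfold rd
  by_cases h1 : v x < 1
  · by_cases h3 : v y < 1
    · rw [if_pos h1, if_pos h3, zero_add, if_pos]
      exact Valuation.map_add_lt _ h1 h3
    · rw [if_pos h1, if_neg h3, zero_add, if_neg]
      rw [Valuation.map_add_eq_of_lt_right v (by rw [eq_one_of_le v hy h3]; exact h1)]
      exact h3
  · by_cases h3 : v y < 1
    · rw [if_neg h1, if_pos h3, add_zero, if_neg]
      rw [Valuation.map_add_eq_of_lt_left v (by rw [eq_one_of_le v hx h1]; exact h3)]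
      exact h1
    · rw [if_neg h1, if_neg h3]
      have h4 := hr x (eq_one_of_le v hx h1)
      have h5 := hr y (eq_one_of_le v hy h3)
      have h6 : x + y = (x - 1) + (y - 1) := by linear_combination h2
      rw [if_pos]
      · rfl
      · rw [h6]; exact Valuation.map_add_lt _ h4 h5

end red

/-! ### Functions on `GL_2(F_2)` -/

/-- the sign -/
def sgi (a b c d : ZMod 2) : ℤ := if a + d = 0 ∧ ¬ (b = 0 ∧ c = 0) then -1 else 1

/-- a matrix coefficient of the two-dimensional representation -/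
def Di (b d : ZMod 2) : ℤ := if d = 0 then 0 else if b = 0 then 1 else -1

/-- the function on pairs of matrices -/
def ci (M N : Matrix (Fin 2) (Fin 2) (ZMod 2)) : ℤ :=
  sgi (M 0 0) (M 0 1) (M 1 0) (M 1 1) * Di (N 0 1) (N 1 1)

lemma sgi_mul : ∀ a b c d a' b' c' d' : ZMod 2, a * d + b * c = 1 → a' * d' + b' * c' = 1 →
    sgi (a * a' + b * c') (a * b' + b * d') (c * a' + d * c') (c * b' + d * d') =
      sgi a b c d * sgi a' b' c' d' := by
  decide

lemma sg_mul (M N : Matrix (Fin 2) (Fin 2) (ZMod 2)) (hM : M.det = 1) (hN : N.det = 1) :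
    sgi ((M * N) 0 0) ((M * N) 0 1) ((M * N) 1 0) ((M * N) 1 1) =
      sgi (M 0 0) (M 0 1) (M 1 0) (M 1 1) * sgi (N 0 0) (N 0 1) (N 1 0) (N 1 1) := by
  have h2 : ∀ x : ZMod 2, -x = x := by decide
  rw [Matrix.det_fin_two, sub_eq_add_neg, h2] at hM hN
  simp only [Matrix.mul_apply, Fin.sum_univ_two]
  exact sgi_mul _ _ _ _ _ _ _ _ hM hN

/-! ### Reduction of matrices -/

/-- reduction of matrices of adeles at the place `t = c` -/
def rm (c : ZMod 2) (k : Matrix (Fin 2) (Fin 2) Af) : Matrix (Fin 2) (Fin 2) (ZMod 2) :=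
  Matrix.of fun i j => rd Valued.v (k i j (pl c))

/-- matrices with integral entries -/
def Int2 (k : Matrix (Fin 2) (Fin 2) Af) : Prop := ∀ (v : Pl) (i j : Fin 2), Valued.v (k i j v) ≤ 1

lemma mul_ev (P Q : Matrix (Fin 2) (Fin 2) Af) (i j : Fin 2) (w : Pl) :
    (P * Q) i j w = P i 0 w * Q 0 j w + P i 1 w * Q 1 j w := by
  rw [Matrix.mul_apply, Fin.sum_univ_two]; rfl

lemma rm_mul (hAP : S_AP) (c : ZMod 2) {k k' : Matrix (Fin 2) (Fin 2) Af} (hk : Int2 k)
    (hk' : Int2 k') : rm c (k * k') = rm c k * rm c k' := by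
  ext i j
  rw [Matrix.mul_apply, Fin.sum_univ_two]
  simp only [rm, Matrix.of_apply, mul_ev]
  rw [rd_add _ (res2 hAP c) (two_Kv _), rd_mul _ (hk _ _ _) (hk' _ _ _),
    rd_mul _ (hk _ _ _) (hk' _ _ _)]
  · rw [map_mul]; exact mul_le_one' (hk _ _ _) (hk' _ _ _)
  · rw [map_mul]; exact mul_le_one' (hk _ _ _) (hk' _ _ _)

lemma rm_one (c : ZMod 2) : rm c 1 = 1 := by
  ext i j
  simp only [rm, Matrix.of_apply]
  by_cases h : i = j
  · subst h
    rw [Matrix.one_apply_eq, Matrix.one_apply_eq]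
    exact rd_one _
  · rw [Matrix.one_apply_ne h, Matrix.one_apply_ne h]
    exact rd_zero _

lemma rm_det (hAP : S_AP) (c : ZMod 2) {k : GL (Fin 2) Af} (hk : k ∈ Kf) :
    (rm c (k : Matrix (Fin 2) (Fin 2) Af)).det = 1 := by
  have h1 : rm c ((k : Matrix (Fin 2) (Fin 2) Af) * ((k⁻¹ : GL (Fin 2) Af) :
      Matrix (Fin 2) (Fin 2) Af)) = 1 := by
    rw [← Units.val_mul, mul_inv_cancel, Units.val_one, rm_one]
  rw [rm_mul hAP c (fun v i j => (hk v i j).1) (fun v i j => (hk v i j).2)] at h1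
  have h2 := congrArg Matrix.det h1
  rw [Matrix.det_mul, Matrix.det_one] at h2
  have h3 : ∀ x y : ZMod 2, x * y = 1 → x = 1 := by decide
  exact h3 _ _ h2

/-- the function `c` of the task -/
def cc (k : GL (Fin 2) Af) : ℂ :=
  ((ci (rm 0 (k : Matrix (Fin 2) (Fin 2) Af)) (rm 1 (k : Matrix (Fin 2) (Fin 2) Af)) : ℤ) : ℂ)

lemma cc_one : cc 1 ≠ 0 := by
  have : ci (rm 0 1) (rm 1 1) = 1 := by
    rw [rm_one, rm_one]; decide
  rw [cc, Units.val_one, this]
  simp

/-- the value of `cc` at a product -/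
lemma cc_mul (hAP : S_AP) {a k : GL (Fin 2) Af} (ha : a ∈ Kf) (hk : k ∈ Kf) :
    cc (a * k) = ((sgi (rm 0 a.1 0 0) (rm 0 a.1 0 1) (rm 0 a.1 1 0) (rm 0 a.1 1 1) *
      (sgi (rm 0 k.1 0 0) (rm 0 k.1 0 1) (rm 0 k.1 1 0) (rm 0 k.1 1 1)) *
      Di ((rm 1 a.1 * rm 1 k.1) 0 1) ((rm 1 a.1 * rm 1 k.1) 1 1) : ℤ) : ℂ) := by
  unfold cc ci
  rw [Units.val_mul, rm_mul hAP 0 (fun v i j => (ha v i j).1) (fun v i j => (hk v i j).1),
    rm_mul hAP 1 (fun v i j => (ha v i j).1) (fun v i j => (hk v i j).1),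
    sg_mul _ _ (rm_det hAP 0 ha) (rm_det hAP 0 hk)]

/-! ### Special elements -/

lemma val_one (v : Pl) : Valued.v ((1 : Af) v) = 1 :=
  map_one (Valued.v : Valuation (Kv v) ℤᵐ⁰)

lemma val_zero (v : Pl) : Valued.v ((0 : Af) v) = 0 :=
  map_zero (Valued.v : Valuation (Kv v) ℤᵐ⁰)

lemma val_neg (v : Pl) (x : Af) : Valued.v ((-x) v) = Valued.v (x v) :=
  Valuation.map_neg (Valued.v : Valuation (Kv v) ℤᵐ⁰) (x v)

lemma nU_mem {x : Af} (hx : ∀ v : Pl, Valued.v (x v) ≤ 1) : nU x ∈ Kf := by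
  intro v i j
  constructor
  · fin_cases i <;> fin_cases j
    · exact (val_one v).le
    · exact hx v
    · exact (val_zero v).le.trans zero_le_one
    · exact (val_one v).le
  · fin_cases i <;> fin_cases j
    · exact (val_one v).le
    · exact (val_neg v x).le.trans (hx v)
    · exact (val_zero v).le.trans zero_le_one
    · exact (val_one v).le

lemma om_mem : om ∈ Kf := by
  intro v i j
  constructor
  · fin_cases i <;> fin_cases j
    · exact (val_zero v).le.trans zero_le_one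
    · exact (val_one v).le
    · exact (val_one v).le
    · exact (val_zero v).le.trans zero_le_one
  · fin_cases i <;> fin_cases j
    · exact (val_zero v).le.trans zero_le_one
    · exact (val_one v).le
    · exact (val_one v).le
    · exact (val_zero v).le.trans zero_le_one

lemma nU1_mem : nU (1 : Af) ∈ Kf := nU_mem fun v => (val_one v).le

lemma nUX_mem : nU (aF Polynomial.X) ∈ Kf := nU_mem fun v => val_aF_le v _

lemma rm_nU (c : ZMod 2) (x : Af) :
    rm c (nU x : GL (Fin 2) Af).1 = !![1, rd Valued.v (x (pl c)); 0, 1] := by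
  ext i j
  fin_cases i <;> fin_cases j
  · exact rd_one _
  · rfl
  · exact rd_zero _
  · exact rd_one _

lemma rm_om (c : ZMod 2) : rm c (om : GL (Fin 2) Af).1 = !![0, 1; 1, 0] := by
  ext i j
  fin_cases i <;> fin_cases j
  · exact rd_zero _
  · exact rd_one _
  · exact rd_one _
  · exact rd_zero _

lemma rd_one' (c : ZMod 2) : rd Valued.v ((1 : Af) (pl c)) = 1 := rd_one _

lemma C0_1 (hAP : S_AP) (k : GL (Fin 2) Af) (hk : k ∈ Kf) : cc (nU 1 * k) = cc k := by
  rw [cc_mul hAP nU1_mem hk, rm_nU, rm_nU, rd_one', rd_one']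
  unfold cc ci
  congr 1
  simp only [Matrix.mul_apply, Fin.sum_univ_two]
  generalize rm 0 k.1 0 0 = a
  generalize rm 0 k.1 0 1 = b
  generalize rm 0 k.1 1 0 = c
  generalize rm 0 k.1 1 1 = d
  generalize rm 1 k.1 0 1 = b'
  generalize rm 1 k.1 1 1 = d'
  revert a b c d b' d'
  decide

lemma C0_2 (hAP : S_AP) (k : GL (Fin 2) Af) (hk : k ∈ Kf) :
    cc k + cc (om * k) + cc (om * nU 1 * k) = 0 := by
  have hd := rm_det hAP 1 hk
  rw [Matrix.det_fin_two] at hd
  rw [cc_mul hAP (mul_mem om_mem nU1_mem) hk, cc_mul hAP om_mem hk, Units.val_mul,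
    rm_mul hAP 0 (fun v i j => (om_mem v i j).1) (fun v i j => (nU1_mem v i j).1),
    rm_mul hAP 1 (fun v i j => (om_mem v i j).1) (fun v i j => (nU1_mem v i j).1),
    rm_nU, rm_nU, rm_om, rm_om, rd_one', rd_one']
  unfold cc ci
  rw [← Int.cast_add, ← Int.cast_add, Int.cast_eq_zero]
  simp only [Matrix.mul_apply, Fin.sum_univ_two]
  revert hd
  generalize rm 0 k.1 0 0 = a
  generalize rm 0 k.1 0 1 = b
  generalize rm 0 k.1 1 0 = c
  generalize rm 0 k.1 1 1 = d
  generalize rm 1 k.1 0 0 = a'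
  generalize rm 1 k.1 1 0 = c'
  generalize rm 1 k.1 0 1 = b'
  generalize rm 1 k.1 1 1 = d'
  revert a b c d a' b' c' d'
  decide

lemma C0_3 (hAP : S_AP) (k : GL (Fin 2) Af) (hk : k ∈ Kf) :
    cc k + cc (nU (aF Polynomial.X) * k) = 0 := by
  have h0 : rd Valued.v (aF Polynomial.X (pl 0)) = 0 := by
    rw [rd_eq_zero, val_pl]; simp
  have h1 : rd Valued.v (aF Polynomial.X (pl 1)) = 1 := by
    have : rd Valued.v (aF Polynomial.X (pl 1)) ≠ 0 := by
      rw [Ne, rd_eq_zero, val_pl]; simp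
    have h3 : ∀ x : ZMod 2, x ≠ 0 → x = 1 := by decide
    exact h3 _ this
  rw [cc_mul hAP nUX_mem hk, rm_nU, rm_nU, h0, h1]
  unfold cc ci
  rw [← Int.cast_add, Int.cast_eq_zero]
  simp only [Matrix.mul_apply, Fin.sum_univ_two]
  generalize rm 0 k.1 0 0 = a
  generalize rm 0 k.1 0 1 = b
  generalize rm 0 k.1 1 0 = c
  generalize rm 0 k.1 1 1 = d
  generalize rm 1 k.1 0 1 = b'
  generalize rm 1 k.1 1 1 = d'
  revert a b c d b' d'
  decide

/-- reduction of matrices which are close to `1` -/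
lemma rm_near (hAP : S_AP) (c : ZMod 2) (k : Matrix (Fin 2) (Fin 2) Af)
    (h : ∀ i j, Valued.v ((k i j - (1 : Matrix (Fin 2) (Fin 2) Af) i j) (pl c)) < 1) :
    rm c k = 1 := by
  have h1 := rm_one c
  rw [← h1]
  ext i j
  simp only [rm, Matrix.of_apply]
  have h2 : k i j (pl c) = ((k i j - (1 : Matrix (Fin 2) (Fin 2) Af) i j) (pl c)) +
      (1 : Matrix (Fin 2) (Fin 2) Af) i j (pl c) := by
    have : (k i j - (1 : Matrix (Fin 2) (Fin 2) Af) i j) (pl c) =
      k i j (pl c) - (1 : Matrix (Fin 2) (Fin 2) Af) i j (pl c) := rfl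
    rw [this]; ring
  have h4 : Valued.v ((1 : Matrix (Fin 2) (Fin 2) Af) i j (pl c)) ≤ 1 := by
    by_cases hij : i = j
    · subst hij; rw [Matrix.one_apply_eq]; exact (val_one _).le
    · rw [Matrix.one_apply_ne hij]; exact (val_zero _).le.trans zero_le_one
  rw [h2, rd_add _ (res2 hAP c) (two_Kv _) (h i j).le h4, (rd_eq_zero _).2 (h i j), zero_add]

lemma C0_4 (hAP : S_AP) : ∃ N : A, N ≠ 0 ∧ ∀ k ∈ Kf, ∀ k' ∈ Kf, (∀ (v : Pl) (i j : Fin 2),
    Valued.v ((k' i j - (1 : Matrix (Fin 2) (Fin 2) Af) i j) v) ≤ Valued.v (aF N v)) →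
      cc (k * k') = cc k := by
  refine ⟨Polynomial.X * (Polynomial.X - Polynomial.C 1),
    mul_ne_zero Polynomial.X_ne_zero (Polynomial.X_sub_C_ne_zero 1), fun k hk k' hk' h => ?_⟩
  have hN : ∀ c : ZMod 2, Valued.v (aF (Polynomial.X * (Polynomial.X - Polynomial.C 1)) (pl c))
      < 1 := by
    intro c
    rw [val_pl]
    simp only [Polynomial.eval_mul, Polynomial.eval_X, Polynomial.eval_sub, Polynomial.eval_C]
    revert c; decide
  have h1 : ∀ c : ZMod 2, rm c (k * k').1 = rm c k.1 := by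
    intro c
    rw [Units.val_mul, rm_mul hAP c (fun v i j => (hk v i j).1) (fun v i j => (hk' v i j).1),
      rm_near hAP c k'.1 (fun i j => (h _ i j).trans_lt (hN c)), mul_one]
  unfold cc
  rw [h1, h1]

/-! ### The last clause -/

section loc

variable {F : Type} [Field F] (v : Valuation F ℤᵐ⁰)

lemma loc_aux (hr : Res2 v) (h2 : (2 : F) = 0) (q : F) (hq : v q ≤ 1) :
    (rd v (1 + q) = 1 + rd v q) ∧ (rd v (1 - q) = 1 + rd v q) ∧
    (rd v (-q ^ 2) = rd v q * rd v q) ∧ (rd v (q ^ 2) = rd v q * rd v q) ∧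
    v (1 + q) ≤ 1 ∧ v (1 - q) ≤ 1 ∧ v (-q ^ 2) ≤ 1 ∧ v (q ^ 2) ≤ 1 := by
  have h1 : v (1 : F) ≤ 1 := (map_one v).le
  have ha : rd v (1 + q) = 1 + rd v q := by
    rw [rd_add v hr h2 h1 hq, rd_one]
  have hb : rd v (q ^ 2) = rd v q * rd v q := by
    rw [pow_two, rd_mul v hq hq]
  have hc : v (1 + q) ≤ 1 := Valuation.map_add_le v h1 hq
  have hd : v (q ^ 2) ≤ 1 := by rw [pow_two, map_mul]; exact mul_le_one' hq hq
  have he : 1 - q = 1 + q := by linear_combination (-q) * h2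
  have hf : -q ^ 2 = q ^ 2 := neg_eq_self_of_two h2 _
  rw [he, hf]
  exact ⟨ha, ha, hb, hb, hc, hc, hd, hd⟩

lemma loc (hr : Res2 v) (h2 : (2 : F) = 0) (G : Matrix (Fin 2) (Fin 2) F) (hG : G.det ≠ 0) :
    ∃ (y : F) (T : Matrix (Fin 2) (Fin 2) F), G * T = !![1, y; 0, 1] * G ∧
      (∀ i j, v (T i j) ≤ 1) ∧
      sgi (rd v (T 0 0)) (rd v (T 0 1)) (rd v (T 1 0)) (rd v (T 1 1)) = -1 := by
  rw [Matrix.det_fin_two] at hG
  by_cases h : v (G 1 0) ≤ v (G 1 1)
  · have hm : G 1 1 ≠ 0 := by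
      intro h0
      rw [h0, map_zero, le_zero_iff, map_eq_zero] at h
      apply hG
      rw [h0, h]; ring
    set q := G 1 0 / G 1 1 with hqdef
    have hq : v q ≤ 1 := by
      rw [hqdef, map_div₀]
      exact div_le_one_of_le₀ h zero_le
    have hc : G 1 0 = q * G 1 1 := by rw [hqdef]; field_simp
    obtain ⟨r1, r2, r3, r4, i1, i2, i3, i4⟩ := loc_aux v hr h2 q hq
    refine ⟨(G 0 0 * G 1 1 - G 0 1 * G 1 0) / (G 1 1) ^ 2, !![1 + q, 1; -q ^ 2, 1 - q], ?_, ?_, ?_⟩
    · ext i j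
      fin_cases i <;> fin_cases j <;>
        simp [Matrix.mul_apply, Fin.sum_univ_two] <;> rw [hc] <;> field_simp <;> ring
    · intro i j
      fin_cases i <;> fin_cases j
      · exact i1
      · exact (map_one v).le
      · exact i3
      · exact i2
    · change sgi (rd v (1 + q)) (rd v 1) (rd v (-q ^ 2)) (rd v (1 - q)) = -1
      rw [r1, r2, r3, rd_one]
      generalize rd v q = r
      revert r; decide
  · have h' : v (G 1 1) < v (G 1 0) := not_le.1 h
    have hm : G 1 0 ≠ 0 := by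
      intro h0
      rw [h0, map_zero] at h'
      exact not_lt_zero h'
    set q := G 1 1 / G 1 0 with hqdef
    have hq : v q ≤ 1 := by
      rw [hqdef, map_div₀]
      exact div_le_one_of_le₀ h'.le zero_le
    have hc : G 1 1 = q * G 1 0 := by rw [hqdef]; field_simp
    obtain ⟨r1, r2, r3, r4, i1, i2, i3, i4⟩ := loc_aux v hr h2 q hq
    refine ⟨(G 0 0 * G 1 1 - G 0 1 * G 1 0) / (G 1 0) ^ 2, !![1 + q, q ^ 2; -1, 1 - q], ?_, ?_, ?_⟩
    · ext i j
      fin_cases i <;> fin_cases j <;>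
        simp [Matrix.mul_apply, Fin.sum_univ_two] <;> rw [hc] <;> field_simp <;> ring
    · intro i j
      fin_cases i <;> fin_cases j
      · exact i1
      · exact i4
      · change v (-1) ≤ 1
        rw [Valuation.map_neg, map_one]
      · exact i2
    · change sgi (rd v (1 + q)) (rd v (q ^ 2)) (rd v (-1)) (rd v (1 - q)) = -1
      rw [r1, r2, r4, neg_eq_self_of_two h2 1, rd_one]
      generalize rd v q = r
      revert r; decide

end loc

/-- evaluation of matrices -/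
def evM (w : Pl) : Matrix (Fin 2) (Fin 2) Af →+* Matrix (Fin 2) (Fin 2) (Kv w) :=
  (ev w).mapMatrix

lemma evM_apply (w : Pl) (P : Matrix (Fin 2) (Fin 2) Af) (i j : Fin 2) :
    evM w P i j = P i j w := rfl

lemma evM_nU (w : Pl) (y : Af) : evM w (nU y : GL (Fin 2) Af).1 = !![1, y w; 0, 1] := by
  ext i j
  fin_cases i <;> fin_cases j <;> rfl

lemma evM_inv (w : Pl) (g : GL (Fin 2) Af) :
    evM w ((g⁻¹ : GL (Fin 2) Af) : Matrix (Fin 2) (Fin 2) Af) * evM w g.1 = 1 := by
  rw [← map_mul, ← Units.val_mul, inv_mul_cancel, Units.val_one, map_one]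

lemma evM_det_ne (w : Pl) (g : GL (Fin 2) Af) : (evM w g.1).det ≠ 0 := by
  intro h
  have h1 := congrArg Matrix.det (evM_inv w g)
  rw [Matrix.det_mul, h, mul_zero, Matrix.det_one] at h1
  exact zero_ne_one h1

lemma nU_inv_self (y : Af) : (nU y : GL (Fin 2) Af)⁻¹ = nU y := by
  have h : (nU y : GL (Fin 2) Af)⁻¹ = nU (-y) := by
    ext i j
    fin_cases i <;> fin_cases j <;> simp [nU]
  rw [h, neg_eq_self_of_two two_Af]

lemma C0_5 (hAP : S_AP) (g : GL (Fin 2) Af) :
    ∃ y : Af, ∃ κ ∈ Kf, nU y * g = g * κ ∧ ∀ k ∈ Kf, cc (k * κ) = -cc k := by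
  obtain ⟨y0, T, hT, hTi, hTs⟩ := loc Valued.v (res2 hAP 0) (two_Kv (pl 0)) (evM (pl 0) g.1)
    (evM_det_ne _ g)
  set y : Af := upd (pl 0) y0 0 with hy
  set κ : GL (Fin 2) Af := g⁻¹ * nU y * g with hκ
  have hinv : κ⁻¹ = κ := by
    rw [hκ, mul_inv_rev, mul_inv_rev, inv_inv, nU_inv_self, mul_assoc]
  have hmul : g * κ = nU y * g := by
    rw [hκ]; group
  have e0 : evM (pl 0) κ.1 = T := by
    have h1 : evM (pl 0) g.1 * evM (pl 0) κ.1 = evM (pl 0) g.1 * T := by
      rw [hT, ← map_mul, ← Units.val_mul, hmul, Units.val_mul, map_mul, evM_nU, hy, upd_same]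
    have h2 := congrArg (fun M => evM (pl 0) ((g⁻¹ : GL (Fin 2) Af) : Matrix (Fin 2) (Fin 2) Af)
      * M) h1
    simp only [← mul_assoc, evM_inv, one_mul] at h2
    exact h2
  have e1 : ∀ w, w ≠ pl 0 → evM w κ.1 = 1 := by
    intro w hw
    have h1 : evM w g.1 * evM w κ.1 = evM w g.1 := by
      rw [← map_mul, ← Units.val_mul, hmul, Units.val_mul, map_mul, evM_nU, hy, upd_ne _ _ _ hw]
      have : !![(1 : Kv w), (0 : Af) w; 0, 1] = 1 := by
        ext i j
        fin_cases i <;> fin_cases j <;> rfl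
      rw [this, one_mul]
    have h2 := congrArg (fun M => evM w ((g⁻¹ : GL (Fin 2) Af) : Matrix (Fin 2) (Fin 2) Af)
      * M) h1
    simp only [← mul_assoc, evM_inv, one_mul] at h2
    exact h2
  have hint : ∀ (w : Pl) (i j : Fin 2), Valued.v (κ i j w) ≤ 1 := by
    intro w i j
    by_cases hw : w = pl 0
    · subst hw
      have : κ i j (pl 0) = T i j := by rw [← e0]; rfl
      rw [this]; exact hTi i j
    · have : κ i j w = (1 : Matrix (Fin 2) (Fin 2) (Kv w)) i j := by rw [← e1 w hw]; rfl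
      rw [this]
      by_cases hij : i = j
      · subst hij; rw [Matrix.one_apply_eq, map_one]
      · rw [Matrix.one_apply_ne hij, map_zero]; exact zero_le_one
  have hκm : κ ∈ Kf := by
    intro w i j
    refine ⟨hint w i j, ?_⟩
    rw [hinv]; exact hint w i j
  refine ⟨y, κ, hκm, hmul.symm, fun k hk => ?_⟩
  rw [cc_mul hAP hk hκm]
  have r1 : rm 1 κ.1 = 1 := by
    rw [← rm_one 1]
    ext i j
    simp only [rm, Matrix.of_apply]
    have h3 : κ i j (pl 1) = (1 : Matrix (Fin 2) (Fin 2) (Kv (pl 1))) i j := by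
      rw [← e1 _ pl_ne]; rfl
    rw [h3]
    congr 1
    by_cases hij : i = j
    · subst hij; rw [Matrix.one_apply_eq, Matrix.one_apply_eq]; rfl
    · rw [Matrix.one_apply_ne hij, Matrix.one_apply_ne hij]; rfl
  have r0 : ∀ i j, rm 0 κ.1 i j = rd Valued.v (T i j) := by
    intro i j
    simp only [rm, Matrix.of_apply]
    rw [← e0]; rfl
  rw [r1, mul_one, r0, r0, r0, r0, hTs]
  unfold cc ci
  push_cast
  ring

theorem t_C0 : S_AP → S_IN → S_C0 := by
  intro hAP _
  exact ⟨cc, cc_one, C0_1 hAP, C0_2 hAP, C0_3 hAP, C0_4 hAP, C0_5 hAP⟩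

end Pool.Agent.T2h21.LLC0
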